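import Pool.Agent.Helper50.Sparse.UniformF

/-!
# The number of elements of small rank below an element with few atoms
-/

set_option autoImplicit false
set_option linter.unusedSectionVars false

namespace Pool.Agent.Helper74.SC

open Pool.Agent.Helper28.BPack Pool.Agent.Helper50.Sparse Finset

variable {L : Type} [Lattice L] [BoundedOrder L] [Fintype L] [IsUpperModularLattice L]

open Classical in
theorem card_rank_le' (hat : ∀ x : L, ∃ s : Finset L, (∀ a ∈ s, IsAtom a) ∧ s.sup id = x)
    (q : L) (i : ℕ) :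
    (univ.filter (fun F : L => F < q ∧ rk F = i)).card ≤
      (univ.filter (fun a : L => IsAtom a ∧ a ≤ q)).card ^ i := by
  have h1 := card_rankF_le hat (⊥ : L) q i
  rw [rk_bot, zero_add] at h1
  have h2 : (univ.filter (fun F : L => (⊥ : L) ≤ F ∧ F < q ∧ rk F = i)) =
      univ.filter (fun F : L => F < q ∧ rk F = i) := by
    apply Finset.filter_congr
    intro F _
    simp
  rw [h2] at h1
  have h3 : (univ.filter (fun j : {u : L // (⊥ : L) ⋖ u} => j.1 ≤ q)).card =
      (univ.filter (fun a : L => IsAtom a ∧ a ≤ q)).card := by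
    rw [← Finset.card_map (Function.Embedding.subtype _)]
    congr 1
    ext a
    rw [Finset.mem_map]
    constructor
    · rintro ⟨j, hj, rfl⟩
      exact Finset.mem_filter.mpr ⟨Finset.mem_univ _, bot_covBy_iff.mp j.2,
        (Finset.mem_filter.mp hj).2⟩
    · intro h
      obtain ⟨-, h4, h5⟩ := Finset.mem_filter.mp h
      exact ⟨⟨a, bot_covBy_iff.mpr h4⟩, Finset.mem_filter.mpr ⟨Finset.mem_univ _, h5⟩, rfl⟩
  rw [h3] at h1
  exact h1

open Classical in
/-- the number of nonzero elements of rank less than half of the rank of `L` below `q` -/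
theorem card_bottoms (hat : ∀ x : L, ∃ s : Finset L, (∀ a ∈ s, IsAtom a) ∧ s.sup id = x)
    {q : L} {t : ℕ} (ht : 1 ≤ t) (hq : (univ.filter (fun a : L => IsAtom a ∧ a ≤ q)).card ≤ t) :
    (univ.filter (fun F : L => 1 ≤ rk F ∧ 2 * rk F < rk (⊤ : L) ∧ F < q)).card ≤
      rk (⊤ : L) * t ^ ((rk (⊤ : L) - 1) / 2) := by
  set r := rk (⊤ : L) with hr
  have h1 : (univ.filter (fun F : L => 1 ≤ rk F ∧ 2 * rk F < r ∧ F < q)) ⊆
      ((Finset.range r).filter (fun i => 2 * i < r)).biUnion
        (fun i => univ.filter (fun F : L => F < q ∧ rk F = i)) := by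
    intro F hF
    obtain ⟨-, h2, h3, h4⟩ := Finset.mem_filter.mp hF
    rw [Finset.mem_biUnion]
    refine ⟨rk F, Finset.mem_filter.mpr ⟨Finset.mem_range.mpr (by omega), h3⟩,
      Finset.mem_filter.mpr ⟨Finset.mem_univ _, h4, rfl⟩⟩
  refine (Finset.card_le_card h1).trans (Finset.card_biUnion_le.trans ?_)
  have h2 : ∀ i ∈ (Finset.range r).filter (fun i => 2 * i < r),
      (univ.filter (fun F : L => F < q ∧ rk F = i)).card ≤ t ^ ((r - 1) / 2) := by
    intro i hi
    have h3 := (Finset.mem_filter.mp hi).2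
    refine (card_rank_le' hat q i).trans ((Nat.pow_le_pow_left hq i).trans ?_)
    exact Nat.pow_le_pow_right ht (by omega)
  refine (Finset.sum_le_card_nsmul _ _ _ h2).trans ?_
  rw [smul_eq_mul]
  apply Nat.mul_le_mul_right
  refine (Finset.card_filter_le _ _).trans ?_
  rw [Finset.card_range]

end Pool.Agent.Helper74.SC
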